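import Pool.Agent.Lib.MP_b3f6df_an.VData

/-!
# Homological dimensions of the Volterra algebra

Let `A = L¹[0,1]` be the Volterra algebra (truncated convolution). We prove that the left small
dimension `ds A`, the left global dimension `dg A` and the bidimension `db A` are all infinite.

Definitions: `Pool.Agent.Lib.MP_b3f6df_an.Dims` (Banach modules and bimodules, relative
projectivity, resolutions which split over `ℂ`, the three dimensions) and
`Pool.Agent.Lib.MP_b3f6df_an.Alg` (the Volterra algebra).
-/

namespace Pool.Agent.Results.MP_b3f6df_an.VolterraDims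

open Pool.Agent.MPb3f6df Pool.Agent.BanachHom

/-- For the Volterra algebra `A = L¹[0,1]`: `ds A = dg A = db A = ∞`. -/
theorem result : ds Volterra = ⊤ ∧ dg Volterra = ⊤ ∧ db Volterra = ⊤ :=
  volterra_dims

end Pool.Agent.Results.MP_b3f6df_an.VolterraDims
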